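import Pool.Agent.H96.JCT.Stmts

/-!
# Board jct, row MON
-/

set_option autoImplicit false

namespace Pool.JCT

open Complex Set Topology Filter

theorem mon_thm : MON_S := by
  intro Φ U f s hU hf hinj hs hfs h2
  have hopen : IsOpen (f ⁻¹' U ∩ Ioo (0 : ℝ) 1) := (hU.preimage hf).inter isOpen_Ioo
  obtain ⟨δ, hδ, hsub⟩ := Metric.nhds_basis_closedBall.mem_iff.1 (hopen.mem_nhds ⟨hfs, hs⟩)
  rw [Real.closedBall_eq_Icc] at hsub
  have h01 : Icc (s - δ) (s + δ) ⊆ Icc 0 1 := fun t ht => Ioo_subset_Icc_self (hsub ht).2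
  have hfU : ∀ t ∈ Icc (s - δ) (s + δ), f t ∈ U := fun t ht => (hsub ht).1
  refine ⟨δ, hδ, h01, hfU, ?_⟩
  have hc : ContinuousOn (fun t => (Φ (f t)).1) (Icc (s - δ) (s + δ)) :=
    (continuous_fst.comp (Φ.continuous.comp hf)).continuousOn
  have hi : InjOn (fun t => (Φ (f t)).1) (Icc (s - δ) (s + δ)) := by
    intro t ht u hu htu
    have e1 := h2 (f t) (hfU t ht) ⟨t, h01 ht, rfl⟩
    have e2 := h2 (f u) (hfU u hu) ⟨u, h01 hu, rfl⟩
    have e3 : Φ (f t) = Φ (f u) := Prod.ext htu (by rw [e1, e2])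
    exact hinj (h01 ht) (h01 hu) (Φ.injective e3)
  exact ContinuousOn.strictMonoOn_of_injOn_Icc' (by linarith) hc hi

end Pool.JCT
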